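import Pool.Agent.N455.CS.Uni
import Pool.Agent.N455.CS.Law

/-!
# Type clones and tractability for random templates

Let `𝔹` be a homogeneous structure in a finite relational signature. We consider random relations
`R_0, ..., R_{t-1}` of large arities `k_0, ..., k_{t-1} ≥ n`, which are invariant under the
automorphism group of `𝔹`, with an arbitrary joint law which has finite energy `exp (-a n)`: given
everything else, every orbit of `k_j`-tuples is contained in `R_j` with conditional probability between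
`exp (-a n)` and `1 - exp (-a n)`. Outside of an event of probability at most `t C exp (-δ exp (c n))`
ALL the templates `𝔸` which contain some `R_j` and whose other relations are some `R_i` or have arity
at most `r` satisfy: either `𝔸` has a constant endomorphism, and for all parameters `c_1, ..., c_l` and
all `m` the type clone contains a constant operation, so that all the templates on the set of the
types which it preserves have a trivial constraint satisfaction problem; or `𝔸` pp-constructs `K_3`, and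
for all parameters and all `m` the operations of the type clone depend on one variable and are
projections if the parameters are forgotten.
-/

namespace Pool.Agent.Results.MP_436c39_lc.RandomTemplates

open Pool.Agent.W994.AR
open Pool.Agent.N455.CS (Omega rel IsLaw prob FiniteEnergy productLaw gibbsLaw)

variable {B : Type}

/-- The automorphisms in `G` which fix the parameters `c`. -/
def fix (G : Subgroup (Equiv.Perm B)) {l : ℕ} (c : Fin l → B) : Subgroup (Equiv.Perm B) where
  carrier := {g | g ∈ G ∧ ∀ i, g (c i) = c i}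
  mul_mem' := by
    rintro g h ⟨hg, hg'⟩ ⟨hh, hh'⟩
    exact ⟨G.mul_mem hg hh, fun i => by rw [Equiv.Perm.mul_apply, hh' i, hg' i]⟩
  one_mem' := ⟨G.one_mem, fun _ => rfl⟩
  inv_mem' := by
    rintro g ⟨hg, hg'⟩
    refine ⟨G.inv_mem hg, fun i => ?_⟩
    rw [Equiv.Perm.inv_eq_iff_eq]
    exact (hg' i).symm

/-- The operation `f` is canonical: the type (orbit under `H`) of the tuple `f (a_1, ..., a_k)` only
depends on the types of the tuples `a_1, ..., a_k`. -/
def Canonical (H : Subgroup (Equiv.Perm B)) {k : ℕ} (f : (Fin k → B) → B) : Prop :=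
  ∀ (m : ℕ) (a b : Fin k → Fin m → B), (∀ i, Same H (a i) (b i)) →
    Same H (fun j => f (fun i => a i j)) (fun j => f (fun i => b i j))

/-- The `k`-ary operations of the type clone of `𝔸` on the set of the types of `m`-tuples: the
operations induced by the canonical polymorphisms. -/
def typeClone (H : Subgroup (Equiv.Perm B)) {ι : Type} {ar : ι → ℕ} (𝔸 : Str ι ar B) (m k : ℕ) :
    Set ((Fin k → Orb H (Fin m)) → Orb H (Fin m)) :=
  {F | ∃ f : (Fin k → B) → B, IsPol 𝔸 f ∧ Canonical H f ∧ ∀ a : Fin k → Fin m → B,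
    F (fun i => Quotient.mk (orb H (Fin m)) (a i)) =
      Quotient.mk (orb H (Fin m)) (fun j => f (fun i => a i j))}

/-- All the templates on the set of the types which are preserved by the type clone (by the
operations of arity at least one) have a trivial
constraint satisfaction problem: an instance has a solution if and only if the relations used in it
are nonempty. -/
def TrivialClone (H : Subgroup (Equiv.Perm B)) {ι : Type} {ar : ι → ℕ} (𝔸 : Str ι ar B) (m : ℕ) :
    Prop :=
  ∀ (τ : Type) (ar' : τ → ℕ) (𝕊 : Str τ ar' (Orb H (Fin m))),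
    (∀ k, 1 ≤ k → ∀ F ∈ typeClone H 𝔸 m k, IsPol 𝕊 F) → ∀ (X : Type) (𝕏 : Str τ ar' X),
      (∃ f : X → Orb H (Fin m), ∀ i, ∀ v ∈ 𝕏 i, (fun j => f (v j)) ∈ 𝕊 i) ↔
        ∀ i, (𝕏 i).Nonempty → (𝕊 i).Nonempty

/-- The type without the parameters. -/
def forget (G : Subgroup (Equiv.Perm B)) {l : ℕ} (c : Fin l → B) (m : ℕ) :
    Orb (fix G c) (Fin m) → Orb G (Fin m) :=
  Quotient.map' (s₁ := orb (fix G c) (Fin m)) (s₂ := orb G (Fin m)) (fun u => u)
    (fun _ _ ⟨g, hg, h⟩ => ⟨g, hg.1, h⟩)

/-- Every operation of the type clone depends on one variable only, and it is a projection if the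
parameters are forgotten. -/
def ProjectionClone (G : Subgroup (Equiv.Perm B)) {l : ℕ} (c : Fin l → B) {ι : Type} {ar : ι → ℕ}
    (𝔸 : Str ι ar B) (m : ℕ) : Prop :=
  ∀ k, ∀ F ∈ typeClone (fix G c) 𝔸 m k, ∃ i : Fin k,
    (∃ h : Orb (fix G c) (Fin m) → Orb (fix G c) (Fin m), ∀ x, F x = h (x i)) ∧
    ∀ x, forget G c m (F x) = forget G c m (x i)

/-- The statement for all the templates which consist of finitely many invariant relations `Γ` of arity
at most `r` and of at least one of the relations `R j`. -/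
def TypeDichotomy {σ : Type} {arB : σ → ℕ} (𝔹 : Str σ arB B) (r : ℕ) {t : ℕ} {k : Fin t → ℕ}
    (R : ∀ j, InvRel (autGroup 𝔹) (Fin (k j))) : Prop :=
  ∀ (ι : Type) [Finite ι] (arΓ : ι → ℕ) (Γ : Str ι arΓ B), (∀ l, arΓ l ≤ r) →
    (∀ l, Invar (autGroup 𝔹) (Γ l)) → ∀ (s : ℕ) (e : Fin s → Fin t), 1 ≤ s →
      (ConstEndo (expand Γ (fun j => (R (e j)).1)) ∧
        ¬ PPConstructsK3 (expand Γ (fun j => (R (e j)).1)) ∧
        ∀ (l : ℕ) (c : Fin l → B) (m : ℕ),
          TrivialClone (fix (autGroup 𝔹) c) (expand Γ (fun j => (R (e j)).1)) m) ∨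
      (PPConstructsK3 (expand Γ (fun j => (R (e j)).1)) ∧
        ∀ (l : ℕ) (c : Fin l → B) (m : ℕ),
          ProjectionClone (autGroup 𝔹) c (expand Γ (fun j => (R (e j)).1)) m)

theorem trivial_of_const {ι : Type} {ar : ι → ℕ} {𝔸 : Str ι ar B} (h : ConstEndo 𝔸)
    (H : Subgroup (Equiv.Perm B)) (m : ℕ) : TrivialClone H 𝔸 m := by
  obtain ⟨b, hb⟩ := h
  intro τ ar' 𝕊 hS X 𝕏
  refine const_csp ⟨Quotient.mk (orb H (Fin m)) (fun _ => b), fun i v hv => ?_⟩ X 𝕏
  have h1 := hS 1 le_rfl (fun _ => Quotient.mk (orb H (Fin m)) (fun _ => b))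
    ⟨fun _ => b, fun i v hv => hb i (v 0) (hv 0), fun m a b' _ => Same.refl H _, fun _ => rfl⟩
  exact h1 i (fun _ => v) (fun _ => hv)

theorem projection_of_max {ι : Type} {ar : ι → ℕ} {𝔸 : Str ι ar B}
    {G : Subgroup (Equiv.Perm B)} (h : PPMax G 𝔸) {l : ℕ} (c : Fin l → B) (m : ℕ) :
    ProjectionClone G c 𝔸 m := by
  classical
  rintro k F ⟨f, hf, _, hF⟩
  obtain ⟨i, e, he, hfe⟩ := h.2.2 k f hf
  have hval : ∀ a : Fin k → Fin m → B, F (fun i => Quotient.mk (orb (fix G c) (Fin m)) (a i)) =
      Quotient.mk (orb (fix G c) (Fin m)) (fun j => e (a i j)) := by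
    intro a
    rw [hF a]
    congr 1
    funext j
    exact hfe _
  have hrep : ∀ x : Fin k → Orb (fix G c) (Fin m), ∃ a : Fin k → Fin m → B,
      x = fun i => Quotient.mk (orb (fix G c) (Fin m)) (a i) := by
    intro x
    choose a ha using fun i => Quotient.exists_rep (x i)
    exact ⟨a, funext fun i => (ha i).symm⟩
  refine ⟨i, ⟨fun s => F (fun _ => s), fun x => ?_⟩, fun x => ?_⟩
  · obtain ⟨a, rfl⟩ := hrep x
    rw [hval a]
    exact (hval (fun _ => a i)).symm
  · obtain ⟨a, rfl⟩ := hrep x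
    rw [hval a]
    apply Quotient.sound
    obtain ⟨g, hg, hge⟩ := he (Finset.univ.image (a i))
    refine Same.symm ⟨g, hg, fun j => ?_⟩
    exact (hge (a i j) (Finset.mem_image_of_mem _ (Finset.mem_univ j))).symm

theorem finite_types {G : Subgroup (Equiv.Perm B)} (hfin : ∀ k, Finite (Orb G (Fin k))) {l : ℕ}
    (c : Fin l → B) (m : ℕ) : Finite (Orb (fix G c) (Fin m)) := by
  have := hfin (l + m)
  let f : Orb (fix G c) (Fin m) → Orb G (Fin (l + m)) :=
    Quotient.map' (s₁ := orb (fix G c) (Fin m)) (s₂ := orb G (Fin (l + m)))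
      (fun u => Fin.append c u) (by
        rintro u v ⟨g, hg, h⟩
        refine ⟨g, hg.1, fun i => ?_⟩
        refine Fin.addCases (fun i => ?_) (fun i => ?_) i
        · rw [Fin.append_left, Fin.append_left]
          exact hg.2 i
        · rw [Fin.append_right, Fin.append_right]
          exact h i)
  refine Finite.of_injective f ?_
  intro x y hxy
  obtain ⟨u, rfl⟩ := Quotient.exists_rep x
  obtain ⟨v, rfl⟩ := Quotient.exists_rep y
  obtain ⟨g, hg, h⟩ : Same G (Fin.append c u) (Fin.append c v) := Quotient.exact hxy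
  apply Quotient.sound
  refine ⟨g, ⟨hg, fun i => ?_⟩, fun i => ?_⟩
  · have := h (Fin.castAdd m i)
    rwa [Fin.append_left, Fin.append_left] at this
  · have := h (Fin.natAdd l i)
    rwa [Fin.append_right, Fin.append_right] at this

/-- **Q1 holds for almost all templates, for all laws of finite energy.** -/
theorem result {σ : Type} [Nontrivial B] [Finite σ] {arB : σ → ℕ} (𝔹 : Str σ arB B)
    (h𝔹 : Homogeneous 𝔹) :
    -- there are finitely many types, and at least two without parameters
    (∀ (l : ℕ) (c : Fin l → B) (m : ℕ), Finite (Orb (fix (autGroup 𝔹) c) (Fin m))) ∧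
    (∀ m : ℕ, 2 ≤ m → Nontrivial (Orb (autGroup 𝔹) (Fin m))) ∧
    -- the bound for random relations
    (∀ r : ℕ, ∃ C c δ a : ℝ, 0 < C ∧ 0 < c ∧ 0 < δ ∧ 0 < a ∧
      ∀ (t : ℕ) (k : Fin t → ℕ) (n : ℕ), (∀ j, n ≤ k j) →
        ∀ μ : Set (Omega (autGroup 𝔹) k) → ℝ, IsLaw μ → FiniteEnergy (Real.exp (-(a * n))) μ →
          prob μ (fun Θ => ¬ TypeDichotomy 𝔹 r (fun j => rel (autGroup 𝔹) k Θ j)) ≤
            t * C * Real.exp (-(δ * Real.exp (c * n)))) ∧
    -- independent orbits: sparse relations, random perturbations of given relations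
    (∀ (Ω : Type) [Finite Ω] (p : Ω → ℝ) (ε : ℝ), 0 ≤ ε → (∀ o, ε ≤ p o ∧ p o ≤ 1 - ε) →
      IsLaw (productLaw p) ∧ FiniteEnergy ε (productLaw p)) ∧
    -- Gibbs laws
    (∀ (Ω : Type) [Finite Ω] (H : Set Ω → ℝ) (L : ℝ),
      (∀ (Θ : Set Ω) (o : Ω), |H (insert o Θ) - H (Θ \ {o})| ≤ L) →
        IsLaw (gibbsLaw H) ∧ FiniteEnergy (1 / (1 + Real.exp L)) (gibbsLaw H)) := by
  classical
  have hfin : ∀ k, Finite (Orb (autGroup 𝔹) (Fin k)) := fun k => hom_finite h𝔹 (Fin k)
  refine ⟨fun l c m => finite_types hfin c m, ?_, ?_, ?_, ?_⟩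
  · intro m hm
    obtain ⟨x, y, hxy⟩ := exists_pair_ne B
    refine ⟨⟨Quotient.mk (orb (autGroup 𝔹) (Fin m)) (fun _ => x),
      Quotient.mk (orb (autGroup 𝔹) (Fin m)) (fun j => if (j : ℕ) = 0 then x else y), ?_⟩⟩
    intro h
    obtain ⟨g, _, h1⟩ : Same (autGroup 𝔹) (fun _ : Fin m => x)
      (fun j : Fin m => if (j : ℕ) = 0 then x else y) := Quotient.exact h
    have h2 := h1 ⟨0, by omega⟩
    have h3 := h1 ⟨1, by omega⟩
    simp only [if_true] at h2
    simp only [one_ne_zero, if_false] at h3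
    exact hxy (h2.symm.trans h3)
  · intro r
    obtain ⟨M, hM, hdich⟩ := Pool.Agent.N455.CS.dich_of_rich 𝔹 h𝔹 r
    obtain ⟨C, c, δ, a, hC, hc, hδ, ha, hbd⟩ :=
      Pool.Agent.N455.CS.weight_bound (autGroup 𝔹) M hM hfin
    refine ⟨C, c, δ, a, hC, hc, hδ, ha, ?_⟩
    intro t k n hn μ hμ hfe
    have : Finite (Omega (autGroup 𝔹) k) := by
      have := fun j => hfin (k j)
      infer_instance
    have := Fintype.ofFinite (Omega (autGroup 𝔹) k)
    have h1 := hbd t k n hn (fun R : Finset (Omega (autGroup 𝔹) k) => μ (R : Set _))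
      (fun R => hμ.1 _) hfe.fe
    rw [hμ.sum, mul_one] at h1
    refine le_trans (Pool.Agent.N455.CS.prob_le hμ.1 ?_) h1
    intro R hR hrich
    apply hR
    intro ι _ arΓ Γ hr hΓ s e hs
    rcases hdich ι arΓ Γ hr hΓ s hs (fun j => k (e j))
      (fun j => rel (autGroup 𝔹) k (R : Set (Omega (autGroup 𝔹) k)) (e j))
      (fun j => hrich (e j)) with h | h
    · exact Or.inl ⟨h, not_k3_of_const h, fun l c m => trivial_of_const h _ m⟩
    · exact Or.inr ⟨h.1, fun l c m => projection_of_max h c m⟩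
  · intro Ω _ p ε hε hp
    exact Pool.Agent.N455.CS.product_law p ε hε hp
  · intro Ω _ H L hH
    exact Pool.Agent.N455.CS.gibbs_law H L hH

end Pool.Agent.Results.MP_436c39_lc.RandomTemplates
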